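import Pool.Agent.Helper72_MG.TSY

/-!
# Module AVD: perfect subtrees avoiding countably many closed sets without interior
-/

open Set

namespace Pool.Agent.MG.H72

open Pool.Agent.MG

theorem measurableSet_spl_false (t : Node) : MeasurableSet {T : Set Node | Spl false T t} :=
  (measurableSet_mem_node _).inter (measurableSet_mem_node _)

theorem prefix_of_len {a b c : Node} (h1 : a <+: c) (h2 : b <+: c) (h : a.length ≤ b.length) :
    a <+: b := by
  exact List.prefix_of_prefix_length_le h1 h2 h

/-- Monotonicity of a binary system of nodes. -/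
theorem sys_mono {s : List Bool → Node} (hs : ∀ σ b, s σ ++ [b] <+: s (σ ++ [b]))
    {σ τ : List Bool} (h : σ <+: τ) : s σ <+: s τ := by
  obtain ⟨l, rfl⟩ := h
  induction l using List.reverseRecOn with
  | nil => simp
  | append_singleton l b ih =>
    rw [← List.append_assoc]
    exact ih.trans ((List.prefix_append _ _).trans (hs _ _))

theorem sys_good {s : List Bool → Node} (hs : ∀ σ b, s σ ++ [b] <+: s (σ ++ [b])) :
    Good false {t | ∃ σ, t <+: s σ} := by
  refine ⟨⟨[], List.nil_prefix⟩, ?_, ?_⟩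
  · rintro t a ⟨σ, h⟩
    exact ⟨σ, (List.prefix_append _ _).trans h⟩
  · rintro t ⟨σ, h⟩
    exact ⟨s σ, ⟨σ, List.prefix_rfl⟩, h, ⟨σ ++ [false], hs _ _⟩, ⟨σ ++ [true], hs _ _⟩⟩

/-- A branch of the tree of a binary system passes through nodes of every level. -/
theorem sys_level {s : List Bool → Node} (hs : ∀ σ b, s σ ++ [b] <+: s (σ ++ [b]))
    {x : R} (hx : x ∈ bS {t | ∃ σ, t <+: s σ}) (n : ℕ) :
    ∃ σ : List Bool, σ.length = n ∧ On (s σ) x := by
  have hfin : (Set.image (fun σ => (s σ).length) {σ : List Bool | σ.length = n}).Finite :=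
    (List.finite_length_eq Bool n).image _
  obtain ⟨M, hM⟩ := hfin.bddAbove
  obtain ⟨τ, hτ⟩ := hx M
  -- a longer index
  have h1 : ∃ τ' : List Bool, n ≤ τ'.length ∧ pre x M <+: s τ' := by
    refine ⟨τ ++ List.replicate n false, ?_, hτ.trans (sys_mono hs (List.prefix_append _ _))⟩
    simp
  obtain ⟨τ', h2, h3⟩ := h1
  refine ⟨τ'.take n, by simp [h2], ?_⟩
  have h4 : (s (τ'.take n)).length ≤ M :=
    hM ⟨τ'.take n, by simp [h2], rfl⟩
  have h5 : s (τ'.take n) <+: pre x M :=
    prefix_of_len (sys_mono hs (List.take_prefix _ _)) h3 (by simpa using h4)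
  exact (on_iff_prefix h4).2 h5

theorem avdStmt : AvdStmt := by
  -- selection of splitting nodes
  have h1 : ∀ t : Node, ∃ c : Set Node → Node, MeasC c ∧
      ∀ T, (∃ t', t' ∈ T ∧ t <+: t' ∧ Spl false T t') →
        c T ∈ T ∧ t <+: c T ∧ Spl false T (c T) := by
    intro t
    exact exists_sel' (fun (t' : Node) (T : Set Node) => t' ∈ T ∧ t <+: t' ∧ Spl false T t')
      (fun t' => (measurableSet_mem_node t').inter
        ((MeasurableSet.const _).inter (measurableSet_spl_false t')))
  have h2 : ∀ (t : Node), ∃ c : Set Node × Set Node → Node, MeasC c ∧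
      ∀ T, (∃ t', t' ∈ T.1 ∧ t <+: t' ∧ ∃ u, u <+: t' ∧ u ∉ T.2) →
        c T ∈ T.1 ∧ t <+: c T ∧ ∃ u, u <+: c T ∧ u ∉ T.2 := by
    intro t
    refine exists_sel' (fun (t' : Node) (T : Set Node × Set Node) =>
      t' ∈ T.1 ∧ t <+: t' ∧ ∃ u, u <+: t' ∧ u ∉ T.2)
      (fun t' => ((measurableSet_mem_node t').preimage measurable_fst).inter
        ((MeasurableSet.const _).inter ?_))
    have h3 : {T : Set Node × Set Node | ∃ u, u <+: t' ∧ u ∉ T.2} =
        ⋃ u : Node, {T : Set Node × Set Node | u <+: t'} ∩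
          (Prod.snd ⁻¹' {T : Set Node | u ∈ T})ᶜ := by
      ext T
      simp
    change MeasurableSet {T : Set Node × Set Node | ∃ u, u <+: t' ∧ u ∉ T.2}
    rw [h3]
    exact MeasurableSet.iUnion fun u => (MeasurableSet.const _).inter
      ((measurableSet_mem_node u).preimage measurable_snd).compl
  choose SS hSm hS using h1
  choose WW hWm hW using h2
  let Om := Set Node × (ℕ → Set Node)
  -- the system, computed along the index with the level as a counter
  let st : ℕ × Node → Bool → Om → ℕ × Node := fun r b z =>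
    (r.1 + 1, SS (WW (r.2 ++ [b]) (z.1, z.2 r.1)) z.1)
  let r : List Bool → Om → ℕ × Node := fun σ z =>
    σ.foldl (fun r b => st r b z) (0, SS [] z.1)
  have r_nil : ∀ z, r [] z = (0, SS [] z.1) := fun _ => rfl
  have r_app : ∀ σ b z, r (σ ++ [b]) z = st (r σ z) b z := by
    intro σ b z
    simp only [r, List.foldl_append, List.foldl_cons, List.foldl_nil]
  have r_fst : ∀ σ z, (r σ z).1 = σ.length := by
    intro σ z
    induction σ using List.reverseRecOn with
    | nil => rfl
    | append_singleton σ b ih =>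
      rw [r_app]
      simp only [st, ih, List.length_append, List.length_singleton]
  let s : List Bool → Om → Node := fun σ z => (r σ z).2
  have s_app : ∀ σ b z, s (σ ++ [b]) z =
      SS (WW (s σ z ++ [b]) (z.1, z.2 σ.length)) z.1 := by
    intro σ b z
    simp only [s, r_app, st, r_fst]
  have hmeasC_comp : ∀ {α β X : Type} [MeasurableSpace α] [MeasurableSpace β] {c : α → X}
      (_ : MeasC c) (f : β → α), Measurable f → MeasC (fun w => c (f w)) := by
    intro α β X _ _ c hc f hf
    refine ⟨fun x => hf (hc.1 x), hc.2.mono ?_⟩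
    rintro _ ⟨w, rfl⟩
    exact ⟨f w, rfl⟩
  have hsm : ∀ σ, MeasC (s σ) := by
    intro σ
    induction σ using List.reverseRecOn with
    | nil => exact hmeasC_comp (hSm []) (fun z : Om => z.1) measurable_fst
    | append_singleton σ b ih =>
      have h3 : s (σ ++ [b]) = fun z => SS (WW (s σ z ++ [b]) (z.1, z.2 σ.length)) z.1 := by
        funext z
        exact s_app σ b z
      rw [h3]
      refine ih.bindC (g := fun t (z : Om) => SS (WW (t ++ [b]) (z.1, z.2 σ.length)) z.1)
        (fun t => ?_)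
      have h4 : MeasC (fun z : Om => WW (t ++ [b]) (z.1, z.2 σ.length)) :=
        hmeasC_comp (hWm (t ++ [b])) (fun z : Om => (z.1, z.2 σ.length))
          (measurable_fst.prodMk ((measurable_pi_apply _).comp measurable_snd))
      exact h4.bindC (g := fun t (z : Om) => SS t z.1)
        (fun t => hmeasC_comp (hSm t) (fun z : Om => z.1) measurable_fst)
  refine ⟨fun T Q => {t | ∃ σ, t <+: s σ (T, Q)}, ?_, fun T Q hT hQ => ?_⟩
  · rw [measurable_node_iff]
    intro t
    have h3 : {w : Om | t ∈ {t | ∃ σ, t <+: s σ (w.1, w.2)}} =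
        ⋃ σ : List Bool, {w | s σ w ∈ {u | t <+: u}} := by
      ext w
      simp
    rw [h3]
    exact MeasurableSet.iUnion fun σ => (hsm σ).preimage _
  · have hT' : ∀ t ∈ T, ∃ t' ∈ T, t <+: t' ∧ Spl false T t' := hT.spl
    have key : ∀ (n : ℕ) (t : Node), t ∈ T → WW t (T, Q n) ∈ T ∧ t <+: WW t (T, Q n) ∧
        ∃ u, u <+: WW t (T, Q n) ∧ u ∉ Q n := by
      intro n t ht
      apply hW t (T, Q n)
      have h3 := hQ n t ht
      rw [Set.not_subset] at h3
      obtain ⟨x, hx, hxQ⟩ := h3
      obtain ⟨hx1, hx2⟩ := mem_bS_subT hx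
      have h4 : ∃ k, pre x k ∉ Q n := by
        by_contra hcon
        push Not at hcon
        exact hxQ hcon
      obtain ⟨k, hk⟩ := h4
      refine ⟨pre x (max k t.length), hx1 _, ?_, pre x k, pre_isPrefix x (le_max_left _ _), hk⟩
      exact (on_iff_prefix (le_max_right _ _)).1 hx2
    have hst : ∀ σ, s σ (T, Q) ∈ T ∧ Spl false T (s σ (T, Q)) := by
      intro σ
      induction σ using List.reverseRecOn with
      | nil =>
        obtain ⟨t, h3, h4, h5⟩ := hT.spl [] hT.nil
        obtain ⟨h6, _, h8⟩ := hS [] T ⟨t, h3, h4, h5⟩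
        exact ⟨h6, h8⟩
      | append_singleton σ b ih =>
        rw [s_app]
        have h3 : s σ (T, Q) ++ [b] ∈ T := by
          cases b
          · exact ih.2.1
          · exact ih.2.2
        obtain ⟨t, h4, h5, h6⟩ := hT.spl _ (key σ.length _ h3).1
        obtain ⟨h7, _, h8⟩ := hS _ T ⟨t, h4, h5, h6⟩
        exact ⟨h7, h8⟩
    have hsb : ∀ σ b, s σ (T, Q) ++ [b] ∈ T := by
      intro σ b
      cases b
      · exact (hst σ).2.1
      · exact (hst σ).2.2
    have hnext : ∀ σ b, s σ (T, Q) ++ [b] <+: s (σ ++ [b]) (T, Q) ∧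
        ∃ u, u <+: s (σ ++ [b]) (T, Q) ∧ u ∉ Q σ.length := by
      intro σ b
      rw [s_app]
      obtain ⟨h3, h4, u, h5, h6⟩ := key σ.length _ (hsb σ b)
      obtain ⟨t, h7, h8, h9⟩ := hT.spl _ h3
      obtain ⟨_, h11, _⟩ := hS _ T ⟨t, h7, h8, h9⟩
      exact ⟨h4.trans h11, u, h5.trans h11, h6⟩
    have hs : ∀ σ b, s σ (T, Q) ++ [b] <+: s (σ ++ [b]) (T, Q) := fun σ b => (hnext σ b).1
    refine ⟨sys_good hs, ?_, fun n => ?_⟩
    · rintro t ⟨σ, h⟩
      exact hT.mem_of_isPrefix h (hst σ).1
    · rw [Set.disjoint_left]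
      intro x hx hxQ
      obtain ⟨σ, h3, h4⟩ := sys_level hs hx (n + 1)
      rcases List.eq_nil_or_concat σ with h5 | ⟨τ, b, h5⟩
      · rw [h5] at h3
        simp at h3
      · have h6 : σ = τ ++ [b] := by simpa using h5
        have h7 : τ.length = n := by
          rw [h6] at h3
          simpa using h3
        rw [h6] at h4
        obtain ⟨_, u, h8, h9⟩ := hnext τ b
        rw [h7] at h9
        apply h9
        have h10 : On u x := h4.of_prefix h8
        have h11 := hxQ u.length
        rwa [show pre x u.length = u from h10] at h11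

end Pool.Agent.MG.H72
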