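import Pool.Agent.Helper72_MG.AVD

/-!
# Module EV: the even splitting choices of a branch of a perfect tree
-/

open Set

namespace Pool.Agent.MG.H72

open Pool.Agent.MG

open Classical in
/-- The number of splitting proper initial segments. -/
noncomputable def ns (T : Set Node) (c : Node) : ℕ :=
  ∑ l ∈ Finset.range c.length, if Spl false T (c.take l) then 1 else 0

theorem measurable_ns (c : Node) : Measurable (fun T : Set Node => ns T c) := by
  classical
  unfold ns
  refine Finset.measurable_fun_sum _ fun l _ => ?_
  exact Measurable.ite (measurableSet_spl_false _) measurable_const measurable_const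

theorem ns_le (T : Set Node) (c : Node) : ns T c ≤ c.length := by
  classical
  unfold ns
  calc _ ≤ ∑ l ∈ Finset.range c.length, 1 := Finset.sum_le_sum fun l _ => by split_ifs <;> simp
    _ = c.length := by simp

open Classical in
theorem ns_pre (T : Set Node) (x : R) (n : ℕ) :
    ns T (pre x n) = Nat.count (fun l => Spl false T (pre x l)) n := by
  unfold ns
  rw [Nat.count_eq_card_filter_range, Finset.card_filter]
  simp only [length_pre]
  refine Finset.sum_congr rfl fun l hl => ?_
  rw [take_pre x (Finset.mem_range.1 hl).le]

/-- The even splitting choices. -/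
def ec (T : Set Node) : Set (Node × Node) :=
  {p | Good false T ∧ p.1.length = p.2.length ∧ p.2 ∈ T ∧ ∀ l, l < p.2.length →
    Spl false T (p.2.take l) → ∀ n, ns T (p.2.take l) = 2 * n →
      p.1.getD n false = p.2.getD l false}

/-- The nodes whose even splitting choices are the given ones. -/
def ev (T : Set Node) (z : R) : Set Node := {c | (pre z c.length, c) ∈ ec T}

theorem measurable_ec : Measurable ec := by
  rw [measurable_pair_iff]
  rintro ⟨a, c⟩
  have h1 : {T : Set Node | (a, c) ∈ ec T} = {T | Good false T} ∩
      ({T | a.length = c.length} ∩ ({T | c ∈ T} ∩ ⋂ l : ℕ, {T | l < c.length →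
        Spl false T (c.take l) → ∀ n, ns T (c.take l) = 2 * n →
          a.getD n false = c.getD l false})) := by
    ext T
    simp only [ec, Set.mem_ofPred_eq, Set.mem_inter_iff, Set.mem_iInter]
  rw [h1]
  refine (measurableSet_good false).inter ((MeasurableSet.const _).inter
    ((measurableSet_mem_node c).inter (MeasurableSet.iInter fun l => ?_)))
  by_cases hl : l < c.length
  · have h2 : {T : Set Node | l < c.length → Spl false T (c.take l) →
        ∀ n, ns T (c.take l) = 2 * n → a.getD n false = c.getD l false} =
        {T : Set Node | Spl false T (c.take l)}ᶜ ∪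
          ⋂ n : ℕ, ({T | ns T (c.take l) = 2 * n}ᶜ ∪ {T | a.getD n false = c.getD l false}) := by
      ext T
      simp only [hl, true_imp_iff, Set.mem_ofPred_eq, Set.mem_union, Set.mem_compl_iff,
        Set.mem_iInter]
      constructor
      · intro h
        by_cases h3 : Spl false T (c.take l)
        · refine Or.inr fun n => ?_
          by_cases h4 : ns T (c.take l) = 2 * n
          · exact Or.inr (h h3 n h4)
          · exact Or.inl h4
        · exact Or.inl h3
      · intro h h3 n h4
        rcases h with h | h
        · exact absurd h3 h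
        · rcases h n with h5 | h5
          · exact absurd h4 h5
          · exact h5
    rw [h2]
    refine (measurableSet_spl_false _).compl.union (MeasurableSet.iInter fun n => ?_)
    exact ((measurable_ns _) (measurableSet_singleton (2 * n))).compl.union
      (MeasurableSet.const _)
  · have h2 : {T : Set Node | l < c.length → Spl false T (c.take l) →
        ∀ n, ns T (c.take l) = 2 * n → a.getD n false = c.getD l false} = Set.univ := by
      ext T
      simp [hl]
    rw [h2]
    exact MeasurableSet.univ

theorem measurable_ev : Measurable (fun z : Set Node × R => ev z.1 z.2) := by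
  rw [measurable_node_iff]
  intro c
  have h1 : {w : Set Node × R | c ∈ ev w.1 w.2} =
      ⋃ a : Node, (Prod.snd ⁻¹' {x : R | pre x c.length = a}) ∩
        (Prod.fst ⁻¹' (ec ⁻¹' {H : Set (Node × Node) | (a, c) ∈ H})) := by
    ext w
    simp [ev]
  rw [h1]
  exact MeasurableSet.iUnion fun a =>
    ((measurableSet_pre_eq _ _).preimage measurable_snd).inter
      ((measurable_ec (measurableSet_mem_pair (a, c))).preimage measurable_fst)

/-- Every node of a perfect tree has a successor in the tree. -/
theorem exists_succ {T : Set Node} (hT : Good false T) {c : Node} (hc : c ∈ T) :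
    ∃ b, c ++ [b] ∈ T := by
  obtain ⟨t, ht, ⟨l, hl⟩, hs⟩ := hT.spl c hc
  cases l with
  | nil =>
    simp only [List.append_nil] at hl
    subst hl
    exact ⟨false, hs.1⟩
  | cons b l =>
    refine ⟨b, hT.mem_of_isPrefix ?_ ht⟩
    rw [← hl]
    exact ⟨l, by simp⟩

/-- A branch of a perfect tree passes through infinitely many splitting nodes. -/
theorem infinite_spl {T : Set Node} (hT : Good false T) {x : R} (hx : x ∈ bS T) :
    {l | Spl false T (pre x l)}.Infinite := by
  rw [Set.infinite_iff_exists_gt]
  intro m
  by_contra hcon
  push Not at hcon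
  -- all the nodes above are on the branch
  have h1 : ∀ l : Node, pre x (m + 1) ++ l ∈ T → On (pre x (m + 1) ++ l) x := by
    intro l
    induction l using List.reverseRecOn with
    | nil => intro _; simp [On]
    | append_singleton l b ih =>
      intro h
      rw [← List.append_assoc] at h ⊢
      have h2 := hT.down _ _ h
      have h3 := ih h2
      set d := pre x (m + 1) ++ l with hd
      have h4 : pre x d.length = d := h3
      have h5 : pre x (d.length + 1) = d ++ [x d.length] := by rw [pre_succ, h4]
      by_cases hb : b = x d.length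
      · unfold On
        rw [List.length_append, List.length_singleton, h5, hb]
      · exfalso
        have h6 : d ++ [x d.length] ∈ T := by
          rw [← h5]
          exact hx _
        have h7 : Spl false T (pre x d.length) := by
          rw [h4]
          cases hb1 : b <;> cases hb2 : x d.length
          · rw [hb1, hb2] at hb
            exact absurd rfl hb
          · rw [hb1] at h
            rw [hb2] at h6
            exact ⟨h, h6⟩
          · rw [hb1] at h
            rw [hb2] at h6
            exact ⟨h6, h⟩
          · rw [hb1, hb2] at hb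
            exact absurd rfl hb
        have h8 := hcon d.length h7
        have h9 : d.length = m + 1 + l.length := by rw [hd]; simp
        omega
  obtain ⟨t, ht, ⟨l, hl⟩, hs⟩ := hT.spl _ (hx (m + 1))
  rw [← hl] at ht hs
  have h2 : pre x (pre x (m + 1) ++ l).length = pre x (m + 1) ++ l := h1 l ht
  have h3 := hcon (pre x (m + 1) ++ l).length (by
    change Spl false T (pre x (pre x (m + 1) ++ l).length)
    rw [h2]
    exact hs)
  simp at h3
  omega

open Classical in
/-- The splitting node with a given number on a branch. -/
theorem exists_spl {T : Set Node} (hT : Good false T) {x : R} (hx : x ∈ bS T) (k : ℕ) :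
    ∃ l, k ≤ l ∧ Spl false T (pre x l) ∧ ns T (pre x l) = k := by
  have hinf := infinite_spl hT hx
  refine ⟨Nat.nth (fun l => Spl false T (pre x l)) k, ?_, Nat.nth_mem_of_infinite hinf k, ?_⟩
  · exact (Nat.nth_strictMono hinf).le_apply
  · rw [ns_pre]
    exact Nat.count_nth_of_infinite hinf k

theorem getD_pre (x : R) (n i : ℕ) (h : i < n) : (pre x n).getD i false = x i := by
  have h1 : i < (pre x n).length := by simpa using h
  rw [List.getD_eq_getElem _ _ h1, getElem_pre]

theorem mem_ev {T : Set Node} (hT : Good false T) {z : R} {c : Node} :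
    c ∈ ev T z ↔ c ∈ T ∧ ∀ l, l < c.length → Spl false T (c.take l) →
      ∀ n, ns T (c.take l) = 2 * n → z n = c.getD l false := by
  constructor
  · rintro ⟨_, _, h3, h4⟩
    refine ⟨h3, fun l hl hs n hn => ?_⟩
    have h5 := h4 l hl hs n hn
    simp only at h5
    rwa [getD_pre] at h5
    have h6 := ns_le T (c.take l)
    have h7 : (c.take l).length ≤ l := by simp
    omega
  · rintro ⟨h3, h4⟩
    refine ⟨hT, by simp, h3, fun l hl hs n hn => ?_⟩
    have h5 := h4 l hl hs n hn
    simp only at h5 ⊢
    have h6 := ns_le T (c.take l)
    have h7 : (c.take l).length ≤ l := by simp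
    simp only at hl hn
    rw [getD_pre _ _ _ (by omega), h5]

theorem ev_down {T : Set Node} (hT : Good false T) {z : R} {c : Node} {b : Bool}
    (h : c ++ [b] ∈ ev T z) : c ∈ ev T z := by
  rw [mem_ev hT] at h ⊢
  refine ⟨hT.down _ _ h.1, fun l hl hs n hn => ?_⟩
  have h1 : (c ++ [b]).take l = c.take l := List.take_append_of_le_length hl.le
  have h2 := h.2 l (by simp; omega) (by rwa [h1]) n (by rwa [h1])
  rw [h2, List.getD_append _ _ _ _ hl]

theorem ev_prefix {T : Set Node} (hT : Good false T) {z : R} {c d : Node} (h : c <+: d)
    (hd : d ∈ ev T z) : c ∈ ev T z := by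
  obtain ⟨l, rfl⟩ := h
  induction l using List.reverseRecOn with
  | nil => simpa using hd
  | append_singleton l b ih =>
    rw [← List.append_assoc] at hd
    exact ih (ev_down hT hd)

theorem ev_append {T : Set Node} (hT : Good false T) {z : R} {c : Node} {b : Bool}
    (h : c ∈ ev T z) (hb : c ++ [b] ∈ T)
    (hc : Spl false T c → ∀ n, ns T c = 2 * n → z n = b) : c ++ [b] ∈ ev T z := by
  rw [mem_ev hT] at h ⊢
  refine ⟨hb, fun l hl hs n hn => ?_⟩
  rcases Nat.lt_or_ge l c.length with h1 | h1
  · have h2 : (c ++ [b]).take l = c.take l := List.take_append_of_le_length h1.le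
    rw [h2] at hs hn
    rw [List.getD_append _ _ _ _ h1]
    exact h.2 l h1 hs n hn
  · have h2 : l = c.length := by
      simp at hl
      omega
    subst h2
    rw [List.take_left] at hs hn
    rw [hc hs n hn]
    simp

theorem ev_succ {T : Set Node} (hT : Good false T) {z : R} {c : Node} (h : c ∈ ev T z) :
    ∃ b, c ++ [b] ∈ ev T z := by
  by_cases hs : Spl false T c
  · by_cases hn : ∃ n, ns T c = 2 * n
    · obtain ⟨n, hn⟩ := hn
      refine ⟨z n, ev_append hT h ?_ fun _ n' hn' => ?_⟩
      · cases z n
        · exact hs.1
        · exact hs.2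
      · have : n' = n := by omega
        rw [this]
    · exact ⟨false, ev_append hT h hs.1 fun _ n' hn' => absurd ⟨n', hn'⟩ hn⟩
  · obtain ⟨b, hb⟩ := exists_succ hT ((mem_ev hT).1 h).1
    exact ⟨b, ev_append hT h hb fun h' => absurd h' hs⟩

theorem ev_branch {T : Set Node} (hT : Good false T) {z : R} {c : Node} (h : c ∈ ev T z) :
    ∃ x, On c x ∧ ∀ n, pre x n ∈ ev T z := by
  choose! f hf using fun (c : Node) (h : c ∈ ev T z) => ev_succ hT h
  let g : ℕ → Node := fun n => Nat.rec c (fun _ d => d ++ [f d]) n
  have g_succ : ∀ n, g (n + 1) = g n ++ [f (g n)] := fun _ => rfl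
  have hg : ∀ n, g n ∈ ev T z ∧ (g n).length = c.length + n := by
    intro n
    induction n with
    | zero => exact ⟨h, rfl⟩
    | succ n ih =>
      rw [g_succ]
      refine ⟨hf _ ih.1, ?_⟩
      simp [ih.2]
      omega
  obtain ⟨x, hx⟩ := exists_limit g (fun n => by rw [g_succ]; exact List.prefix_append _ _)
    (fun n => by rw [(hg n).2]; omega)
  refine ⟨x, hx 0, fun n => ?_⟩
  have h1 : pre x (g n).length = g n := hx n
  refine ev_prefix hT ?_ (hg n).1
  rw [← h1]
  apply pre_isPrefix
  rw [(hg n).2]
  omega

theorem evStmt : EvStmt := by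
  refine ⟨ec, ev, measurable_ec, measurable_ev, fun T => ⟨?_, ?_⟩, fun T hT z => ⟨?_, ?_, ?_⟩⟩
  · -- functional
    intro s s' x h h'
    have hT : Good false T := (h 0).1
    have hx : x ∈ bS T := fun n => (h n).2.2.1
    funext n
    obtain ⟨l, h1, h2, h3⟩ := exists_spl hT hx (2 * n)
    have h4 : ∀ s : R, (s, x) ∈ rb (ec T) → s n = x l := by
      intro s hs
      obtain ⟨_, _, _, h5⟩ := hs (l + 1)
      have h6 : (pre x (l + 1)).take l = pre x l := take_pre x (Nat.le_succ l)
      have h7 := h5 l (by simp) (by simp only [h6]; exact h2) n (by simp only [h6]; exact h3)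
      simp only at h7
      rwa [getD_pre _ _ _ (by omega), getD_pre _ _ _ (by omega)] at h7
    rw [h4 s h, h4 s' h']
  · rintro x ⟨s, h⟩ n
    exact (h n).2.2.1
  · refine ⟨?_, fun s a h => ev_down hT h, fun c hc => ?_⟩
    · rw [mem_ev hT]
      exact ⟨hT.nil, fun l hl => by simp at hl⟩
    · obtain ⟨x, hx1, hx2⟩ := ev_branch hT hc
      have hx : x ∈ bS T := fun n => ((mem_ev hT).1 (hx2 n)).1
      obtain ⟨l, h1, h2, h3⟩ := exists_spl hT hx (2 * c.length + 1)
      refine ⟨pre x l, hx2 l, (on_iff_prefix (by omega)).1 hx1, ?_, ?_⟩
      · exact ev_append hT (hx2 l) h2.1 fun _ n hn => by omega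
      · exact ev_append hT (hx2 l) h2.2 fun _ n hn => by omega
  · intro c hc
    exact ((mem_ev hT).1 hc).1
  · ext x
    simp only [bS, ev, rb, Set.mem_ofPred_eq, length_pre]

end Pool.Agent.MG.H72
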