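import Pool.Agent.Helper56_MG.Stmts
import Pool.Agent.Helper56_MG.Base1

/-!
# Module TSY: canonical systems of splitting nodes of Miller trees
-/

open Set

namespace Pool.Agent.MG.H72

open Pool.Agent.MG

/-- Measurable selection of an element of a countable type. -/
theorem exists_sel' {Ω X : Type*} [MeasurableSpace Ω] [Countable X] [Nonempty X]
    (P : X → Ω → Prop) (hP : ∀ x, MeasurableSet {w | P x w}) :
    ∃ c : Ω → X, MeasC c ∧ ∀ w, (∃ x, P x w) → P (c w) w := by
  classical
  obtain ⟨e, he⟩ := exists_surjective_nat X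
  let Q : Ω → ℕ → Prop := fun w n => P (e n) w ∨ (n = 0 ∧ ∀ k, ¬ P (e k) w)
  have hQ : ∀ w, ∃ n, Q w n := by
    intro w
    by_cases h : ∃ n, P (e n) w
    · obtain ⟨n, hn⟩ := h
      exact ⟨n, Or.inl hn⟩
    · exact ⟨0, Or.inr ⟨rfl, not_exists.1 h⟩⟩
  have hm : ∀ k, MeasurableSet {w | Q w k} := by
    intro k
    have h1 : {w | Q w k} = {w | P (e k) w} ∪ ({w | k = 0} ∩ ⋂ j, {w | P (e j) w}ᶜ) := by
      ext w
      simp [Q]
    rw [h1]
    exact (hP _).union ((MeasurableSet.const _).inter (MeasurableSet.iInter fun j => (hP _).compl))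
  have hmeas := measurable_find hQ hm
  refine ⟨fun w => e (Nat.find (hQ w)), measC_of_countable fun x => ?_, fun w hw => ?_⟩
  · have h2 : {w | e (Nat.find (hQ w)) = x} = (fun w => Nat.find (hQ w)) ⁻¹' {n | e n = x} := rfl
    rw [h2]
    exact hmeas (MeasurableSet.of_discrete)
  · obtain ⟨x, hx⟩ := hw
    obtain ⟨n, rfl⟩ := he x
    rcases Nat.find_spec (hQ w) with h | h
    · exact h
    · exact absurd hx (h.2 n)

theorem measurableSet_spl_true (t : Node) : MeasurableSet {T : Set Node | Spl true T t} := by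
  have : {T : Set Node | Spl true T t} =
      ⋂ n : ℕ, ⋃ k : ℕ, {T : Set Node | n ≤ k ∧ t ++ List.replicate k false ++ [true] ∈ T} := by
    ext T
    simp only [Spl, Set.mem_ofPred_eq, Set.mem_iInter, Set.mem_iUnion]
  rw [this]
  exact MeasurableSet.iInter fun n => MeasurableSet.iUnion fun k =>
    (MeasurableSet.const _).inter (measurableSet_mem_node _)

theorem tsyStmt : TsyStmt := by
  -- selection of splitting nodes
  have h1 : ∀ t : Node, ∃ c : Set Node → Node, MeasC c ∧
      ∀ T, (∃ t', t' ∈ T ∧ t <+: t' ∧ Spl true T t') → c T ∈ T ∧ t <+: c T ∧ Spl true T (c T) := by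
    intro t
    exact exists_sel' (fun (t' : Node) (T : Set Node) => t' ∈ T ∧ t <+: t' ∧ Spl true T t')
      (fun t' => (measurableSet_mem_node t').inter
        ((MeasurableSet.const _).inter (measurableSet_spl_true t')))
  have h2 : ∀ (t : Node) (n : ℕ), ∃ c : Set Node → ℕ, MeasC c ∧
      ∀ T, (∃ j, n ≤ j ∧ z1 t j ∈ T) → n ≤ c T ∧ z1 t (c T) ∈ T := by
    intro t n
    exact exists_sel' (fun (j : ℕ) (T : Set Node) => n ≤ j ∧ z1 t j ∈ T)
      (fun j => (MeasurableSet.const _).inter (measurableSet_mem_node _))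
  choose SS hSm hS using h1
  choose NX hNm hN using h2
  let mm : Node → ℕ → Set Node → ℕ := fun t k T =>
    Nat.rec (NX t 0 T) (fun _ r => NX t (r + 1) T) k
  have mm_zero : ∀ t T, mm t 0 T = NX t 0 T := fun _ _ => rfl
  have mm_succ : ∀ t k T, mm t (k + 1) T = NX t (mm t k T + 1) T := fun _ _ _ => rfl
  let s : List ℕ → Set Node → Node := fun σ T =>
    σ.foldl (fun t k => SS (z1 t (mm t k T)) T) (SS [] T)
  have s_nil : ∀ T, s [] T = SS [] T := fun _ => rfl
  have s_app : ∀ σ k T, s (σ ++ [k]) T = SS (z1 (s σ T) (mm (s σ T) k T)) T := by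
    intro σ k T
    simp only [s, List.foldl_append, List.foldl_cons, List.foldl_nil]
  have hmm : ∀ t k, MeasC (mm t k) := by
    intro t k
    induction k with
    | zero => exact hNm t 0
    | succ k ih => exact ih.bindC (g := fun r T => NX t (r + 1) T) (fun r => hNm t (r + 1))
  have hsm : ∀ σ, MeasC (s σ) := by
    intro σ
    induction σ using List.reverseRecOn with
    | nil => exact hSm []
    | append_singleton σ k ih =>
      have h3 : s (σ ++ [k]) = fun T => SS (z1 (s σ T) (mm (s σ T) k T)) T := by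
        funext T
        exact s_app σ k T
      rw [h3]
      refine ih.bindC (g := fun t T => SS (z1 t (mm t k T)) T) (fun t => ?_)
      exact (hmm t k).bindC (g := fun r T => SS (z1 t r) T) (fun r => hSm _)
  refine ⟨s, fun σ k T => mm (s σ T) k T, hsm, fun σ k => (hsm σ).bindC
    (g := fun t T => mm t k T) (fun t => hmm t k), fun T hT => ?_⟩
  -- properties for a good tree
  have hmt : ∀ t, Spl true T t → ∀ k, z1 t (mm t k T) ∈ T ∧ mm t k T < mm t (k + 1) T := by
    intro t ht
    have h3 : ∀ n, n ≤ NX t n T ∧ z1 t (NX t n T) ∈ T := by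
      intro n
      exact hN t n T (ht n)
    intro k
    refine ⟨?_, ?_⟩
    · cases k with
      | zero => exact (h3 0).2
      | succ k => exact (h3 _).2
    · rw [mm_succ]
      exact (h3 _).1
  have hst : ∀ σ, s σ T ∈ T ∧ Spl true T (s σ T) := by
    intro σ
    induction σ using List.reverseRecOn with
    | nil =>
      obtain ⟨t, h3, h4, h5⟩ := hT.spl [] hT.nil
      obtain ⟨h6, _, h8⟩ := hS [] T ⟨t, h3, h4, h5⟩
      exact ⟨h6, h8⟩
    | append_singleton σ k ih =>
      rw [s_app]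
      obtain ⟨t, h3, h4, h5⟩ := hT.spl _ (hmt _ ih.2 k).1
      obtain ⟨h6, _, h8⟩ := hS _ T ⟨t, h3, h4, h5⟩
      exact ⟨h6, h8⟩
  refine ⟨fun σ => strictMono_nat_of_lt_succ fun k => (hmt _ (hst σ).2 k).2, fun σ k => ?_,
    fun σ => (hst σ).1⟩
  rw [s_app]
  obtain ⟨t, h3, h4, h5⟩ := hT.spl _ (hmt _ (hst σ).2 k).1
  exact (hS _ T ⟨t, h3, h4, h5⟩).2.1

end Pool.Agent.MG.H72
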